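import Mathlib

/-!
# The least Hilbert function of `r` double points of projective space

For all `n, r ≥ 1` the set of the Hilbert functions of `r` double points of `ℙⁿ` has a least
element, the function `d ↦ min (d + 1) (2 r) + (n - 1) min d r`, attained by `r` points on a line.

Lower bound: choose linear forms `A, B` such that `A` has no zero among the points and `B / A`
separates the points; a form `f(A, B) + ∑_{j ≥ 2} x_j g_j(A, B)` with `deg f < 2 r` and
`deg g_j < r` (as polynomials in `B / A`) which is singular at all the points is zero.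
-/

set_option autoImplicit false

open MvPolynomial
open scoped LinearAlgebra.Projectivization

namespace Pool.Agent.Results.MP_676d90_ag.LeastHilbertFunction

/-- The homogeneous prime ideal of a point of `ℙⁿ`: all the polynomials in `x₀, …, xₙ` which
vanish on the line of `ℂⁿ⁺¹` given by the point. -/
noncomputable def primeIdeal {n : ℕ} (p : ℙ ℂ (Fin (n + 1) → ℂ)) :
    Ideal (MvPolynomial (Fin (n + 1)) ℂ) where
  carrier := {F | ∀ w ∈ p.submodule, eval w F = 0}
  add_mem' := by
    intro F G hF hG w hw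
    rw [map_add, hF w hw, hG w hw, add_zero]
  zero_mem' := by
    intro w _
    exact map_zero _
  smul_mem' := by
    intro c F hF w hw
    rw [smul_eq_mul, map_mul, hF w hw, mul_zero]

/-- The symbolic square `⋂ p_P ^ 2` of the ideal of the finite set `Y` of points of `ℙⁿ`. -/
noncomputable def symbolicSquare {n : ℕ} (Y : Finset (ℙ ℂ (Fin (n + 1) → ℂ))) :
    Ideal (MvPolynomial (Fin (n + 1)) ℂ) :=
  ⨅ P ∈ Y, primeIdeal P ^ 2

/-- The Hilbert function `d ↦ dim R_d - dim J_d` of `R / J`. -/
noncomputable def hilbert {n : ℕ} (J : Ideal (MvPolynomial (Fin (n + 1)) ℂ)) (d : ℕ) : ℤ :=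
  (Module.finrank ℂ (homogeneousSubmodule (Fin (n + 1)) ℂ d) : ℤ) -
    Module.finrank ℂ (homogeneousSubmodule (Fin (n + 1)) ℂ d ⊓ Submodule.restrictScalars ℂ J :
      Submodule ℂ (MvPolynomial (Fin (n + 1)) ℂ))

/-- The set of the Hilbert functions of `R / I_Y^(2)`, for the sets `Y` of exactly `r` points
of `ℙⁿ`. -/
def hilbertFunctions (n r : ℕ) : Set (ℕ → ℤ) :=
  {H | ∃ Y : Finset (ℙ ℂ (Fin (n + 1) → ℂ)), Y.card = r ∧ H = hilbert (symbolicSquare Y)}

instance finDimHomog (n d : ℕ) :
    FiniteDimensional ℂ (homogeneousSubmodule (Fin (n + 1)) ℂ d) := by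
  have : homogeneousSubmodule (Fin (n + 1)) ℂ d ≤ restrictTotalDegree (Fin (n + 1)) ℂ d := by
    intro F hF
    rw [mem_restrictTotalDegree]
    exact ((mem_homogeneousSubmodule _ _).1 hF).totalDegree_le
  exact Submodule.finiteDimensional_of_le this

/-! ### Membership in the square of the ideal of a point -/

lemma taylor_mem {n : ℕ} (I : Ideal (MvPolynomial (Fin (n + 1)) ℂ))
    (a : Fin (n + 1) → MvPolynomial (Fin (n + 1)) ℂ) (ha : ∀ j, X j - a j ∈ I)
    (F : MvPolynomial (Fin (n + 1)) ℂ) :
    F - aeval a F - ∑ j, (X j - a j) * aeval a (pderiv j F) ∈ I ^ 2 := by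
  induction F using MvPolynomial.induction_on with
  | C c =>
    simp [algebraMap_eq]
  | add p q hp hq =>
    have := Ideal.add_mem _ hp hq
    convert this using 1
    simp only [map_add, mul_add, Finset.sum_add_distrib]
    ring
  | mul_X p i hp =>
    -- `p X_i = p a_i + p (X_i - a_i)`
    have h1 := Ideal.mul_mem_left _ (X i) hp
    have h2 : ∀ j, (X j - a j) * (X i - a i) ∈ I ^ 2 := fun j => by
      rw [pow_two]; exact Ideal.mul_mem_mul (ha j) (ha i)
    have h3 : (X i - a i) * (∑ j, (X j - a j) * aeval a (pderiv j p)) ∈ I ^ 2 := by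
      rw [Finset.mul_sum]
      apply Ideal.sum_mem
      intro j _
      have := Ideal.mul_mem_left _ (aeval a (pderiv j p)) (h2 j)
      convert this using 1
      ring
    have h4 := Ideal.add_mem _ h1 h3
    convert h4 using 1
    have h5 : ∀ j, (X j - a j) * aeval a (pderiv j (p * X i)) =
        (X j - a j) * aeval a (pderiv j p) * a i +
          (X j - a j) * (aeval a p * (if j = i then 1 else 0)) := by
      intro j
      rw [Derivation.leibniz, pderiv_X]
      simp only [smul_eq_mul, map_add, map_mul, aeval_X]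
      rw [Pi.single_apply]
      by_cases h : j = i
      · subst h; simp; ring
      · simp [h, Ne.symm h]; ring
    simp only [h5, Finset.sum_add_distrib, map_mul, aeval_X, ← Finset.sum_mul, mul_ite, mul_one,
      mul_zero, Finset.sum_ite_eq', Finset.mem_univ, if_true]
    ring

lemma aeval_line {n m : ℕ} (v : Fin (n + 1) → ℂ) {F : MvPolynomial (Fin (n + 1)) ℂ}
    (hF : F.IsHomogeneous m) (i : Fin (n + 1)) :
    aeval (fun j => C (v j) * X i : Fin (n + 1) → MvPolynomial (Fin (n + 1)) ℂ) F =
      C (eval v F) * X i ^ m := by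
  rw [aeval_def, eval₂_eq', eval_eq', map_sum, Finset.sum_mul]
  apply Finset.sum_congr rfl
  intro u hu
  have h1 : ∑ j, u j = m := by
    have := hF (mem_support_iff.1 hu)
    rwa [Finsupp.weight_apply, Finsupp.sum_fintype _ _ (by simp), ← Finset.sum_congr rfl
      (fun j _ => by simp : ∀ j ∈ Finset.univ, u j = u j • (1 : Fin (n + 1) → ℕ) j)] at this
  rw [algebraMap_eq, map_mul, map_prod, mul_assoc, ← h1, ← Finset.prod_pow_eq_pow_sum,
    ← Finset.prod_mul_distrib]
  congr 1
  apply Finset.prod_congr rfl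
  intro j _
  rw [mul_pow, map_pow]

/-- A form singular at a point `v` with `v 0 = 1` is in the square of the prime ideal. -/
lemma mem_sq {n m : ℕ} (v : Fin (n + 1) → ℂ) (hv : v ≠ 0) (hv0 : v 0 = 1)
    {F : MvPolynomial (Fin (n + 1)) ℂ} (hF : F.IsHomogeneous m) (h0 : eval v F = 0)
    (h1 : ∀ j, eval v (pderiv j F) = 0) :
    F ∈ primeIdeal (Projectivization.mk ℂ v hv) ^ 2 := by
  have ha : ∀ j, (X j - C (v j) * X 0 : MvPolynomial (Fin (n + 1)) ℂ) ∈
      primeIdeal (Projectivization.mk ℂ v hv) := by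
    intro j w hw
    rw [Projectivization.submodule_mk] at hw
    obtain ⟨t, rfl⟩ := Submodule.mem_span_singleton.1 hw
    simp [hv0]
    ring
  have h2 := taylor_mem (primeIdeal (Projectivization.mk ℂ v hv))
    (fun j => C (v j) * X 0) ha F
  rw [aeval_line v hF 0, h0] at h2
  have h3 : ∑ j, (X j - C (v j) * X 0 : MvPolynomial (Fin (n + 1)) ℂ) *
      aeval (fun j => C (v j) * X 0 : Fin (n + 1) → MvPolynomial (Fin (n + 1)) ℂ)
        (pderiv j F) = 0 := by
    apply Finset.sum_eq_zero
    intro j _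
    rw [aeval_line v hF.pderiv 0, h1 j]
    simp
  rw [h3] at h2
  simpa using h2

/-- The restriction of an element of the square of the ideal of `P` to a parametrised line
through a representative of `P` is divisible by the square of the parameter. -/
lemma line_sq {n : ℕ} (P : ℙ ℂ (Fin (n + 1) → ℂ)) (v w : Fin (n + 1) → ℂ)
    (hv : v ∈ P.submodule) {F : MvPolynomial (Fin (n + 1)) ℂ} (hF : F ∈ primeIdeal P ^ 2) :
    (Polynomial.X : Polynomial ℂ) ^ 2 ∣
      aeval (fun j => Polynomial.C (v j) + Polynomial.C (w j) * Polynomial.X) F := by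
  set θ : MvPolynomial (Fin (n + 1)) ℂ →ₐ[ℂ] Polynomial ℂ :=
    aeval (fun j => Polynomial.C (v j) + Polynomial.C (w j) * Polynomial.X) with hθ
  have h1 : Ideal.map θ.toRingHom (primeIdeal P) ≤ Ideal.span {Polynomial.X} := by
    rw [Ideal.map_le_iff_le_comap]
    intro G hG
    rw [Ideal.mem_comap, Ideal.mem_span_singleton, Polynomial.X_dvd_iff]
    have h2 : ((Polynomial.evalRingHom (0 : ℂ)).comp θ.toRingHom) G = eval v G := by
      have : (Polynomial.evalRingHom (0 : ℂ)).comp θ.toRingHom = eval v := by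
        apply MvPolynomial.ringHom_ext
        · intro c
          simp [hθ]
        · intro j
          simp [hθ]
      rw [this]
    rw [RingHom.comp_apply, Polynomial.coe_evalRingHom] at h2
    rw [Polynomial.coeff_zero_eq_eval_zero, h2]
    exact hG v hv
  have h3 : Ideal.map θ.toRingHom (primeIdeal P ^ 2) ≤ Ideal.span {Polynomial.X ^ 2} := by
    rw [Ideal.map_pow, ← Ideal.span_singleton_pow]
    exact Ideal.pow_right_mono h1 2
  exact Ideal.mem_span_singleton.1 (h3 (Ideal.mem_map_of_mem _ hF))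

/-! ### The lower bound -/

/-- A finite set of nonzero vectors has a linear form without zeros on it. -/
lemma exists_form {N : ℕ} (T : Finset (Fin N → ℂ)) (hT : ∀ v ∈ T, v ≠ 0) :
    ∃ c : Fin N → ℂ, ∀ v ∈ T, ∑ j, c j * v j ≠ 0 := by
  classical
  set G : MvPolynomial (Fin N) ℂ := ∏ v ∈ T, ∑ j, X j * C (v j) with hG
  have hG0 : G ≠ 0 := by
    rw [hG, Finset.prod_ne_zero_iff]
    intro v hv h
    apply hT v hv
    ext j
    have h1 := congrArg (eval (Pi.single j (1 : ℂ))) h
    rw [map_sum, map_zero] at h1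
    simp only [map_mul, eval_X, eval_C, Pi.single_apply, ite_mul, one_mul, zero_mul,
      Finset.sum_ite_eq', Finset.mem_univ, if_true] at h1
    exact h1
  by_contra hcon
  push Not at hcon
  apply hG0
  apply MvPolynomial.funext
  intro c
  obtain ⟨v, hv, h⟩ := hcon c
  rw [map_zero, hG, map_prod]
  apply Finset.prod_eq_zero hv
  rw [map_sum, ← h]
  apply Finset.sum_congr rfl
  intro j _
  simp

/-- the homogenisation of degree `m` of `f` in two forms `A`, `B` -/
noncomputable def hom2 {N : ℕ} (A B : MvPolynomial (Fin N) ℂ) (m : ℕ) :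
    Polynomial ℂ →ₗ[ℂ] MvPolynomial (Fin N) ℂ where
  toFun f := ∑ k ∈ Finset.range (m + 1), f.coeff k • (A ^ (m - k) * B ^ k)
  map_add' := by
    intro f g
    simp only [Polynomial.coeff_add, add_smul, Finset.sum_add_distrib]
  map_smul' := by
    intro c f
    simp only [Polynomial.coeff_smul, smul_assoc, Finset.smul_sum, RingHom.id_apply]

lemma hom2_homog {N : ℕ} {A B : MvPolynomial (Fin N) ℂ} (hA : A.IsHomogeneous 1)
    (hB : B.IsHomogeneous 1) (m : ℕ) (f : Polynomial ℂ) : (hom2 A B m f).IsHomogeneous m := by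
  apply IsHomogeneous.sum
  intro k hk
  rw [smul_eq_C_mul]
  have h1 := (hA.pow (m - k)).mul (hB.pow k)
  have h2 : 1 * (m - k) + 1 * k = m := by
    have := Finset.mem_range.1 hk
    omega
  rw [h2] at h1
  simpa using (isHomogeneous_C (Fin N) (f.coeff k)).mul h1

lemma hom2_map {N m : ℕ} {A B : MvPolynomial (Fin N) ℂ} {f : Polynomial ℂ}
    (hf : f.natDegree ≤ m) (θ : MvPolynomial (Fin N) ℂ →ₐ[ℂ] Polynomial ℂ) (hA : θ A = 1) :
    θ (hom2 A B m f) = f.comp (θ B) := by
  change θ (∑ k ∈ Finset.range (m + 1), f.coeff k • (A ^ (m - k) * B ^ k)) = _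
  rw [map_sum, Polynomial.comp, Polynomial.eval₂_eq_sum_range' _ (Nat.lt_succ_of_le hf)]
  apply Finset.sum_congr rfl
  intro k _
  rw [map_smul, map_mul, map_pow, map_pow, hA, one_pow, one_mul, Polynomial.smul_eq_C_mul]

/-- A polynomial of degree less than the number of its zeros vanishes. -/
lemma zero_of_roots {ι : Type*} (s : Finset ι) (t : ι → ℂ) (ht : Set.InjOn t s)
    {g : Polynomial ℂ} (hg : g.degree < s.card) (h : ∀ i ∈ s, g.eval (t i) = 0) : g = 0 := by
  classical
  apply Polynomial.eq_zero_of_degree_lt_of_eval_finset_eq_zero (s.image t)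
  · rwa [Finset.card_image_of_injOn ht]
  · intro x hx
    obtain ⟨i, hi, rfl⟩ := Finset.mem_image.1 hx
    exact h i hi

/-- A polynomial of degree `< 2 r` with `r` different multiple zeros vanishes. -/
lemma zero_of_double_roots {ι : Type*} (s : Finset ι) (t : ι → ℂ) (ht : Set.InjOn t s)
    {g : Polynomial ℂ} (hg : g.degree < (2 * s.card : ℕ))
    (h : ∀ i ∈ s, (Polynomial.X - Polynomial.C (t i)) ^ 2 ∣ g) : g = 0 := by
  classical
  have h1 : ∏ i ∈ s, (Polynomial.X - Polynomial.C (t i)) ^ 2 ∣ g := by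
    apply Finset.prod_dvd_of_coprime _ h
    intro i hi j hj hij
    apply IsCoprime.pow
    apply Polynomial.isCoprime_X_sub_C_of_isUnit_sub
    rw [isUnit_iff_ne_zero]
    intro h0
    exact hij (ht hi hj (sub_eq_zero.1 h0))
  by_contra hg0
  have h2 := Polynomial.degree_le_of_dvd h1 hg0
  rw [Polynomial.degree_prod] at h2
  simp only [Polynomial.degree_pow, Polynomial.degree_X_sub_C] at h2
  rw [Finset.sum_const] at h2
  have h3 : (s.card • (2 • (1 : WithBot ℕ))) = ((2 * s.card : ℕ) : WithBot ℕ) := by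
    rw [smul_smul, nsmul_eq_mul, mul_one, mul_comm]
  rw [h3] at h2
  exact absurd h2 (not_le.2 hg)

/-- the linear form with coefficients `c` -/
noncomputable def lin {N : ℕ} (c : Fin N → ℂ) : MvPolynomial (Fin N) ℂ := ∑ j, C (c j) * X j

lemma lin_homog {N : ℕ} (c : Fin N → ℂ) : (lin c).IsHomogeneous 1 := by
  apply IsHomogeneous.sum
  intro j _
  simpa using (isHomogeneous_C (Fin N) (c j)).mul (isHomogeneous_X ℂ j)

/-- restriction to the line `v + w s` -/
noncomputable def res {N : ℕ} (v w : Fin N → ℂ) : MvPolynomial (Fin N) ℂ →ₐ[ℂ] Polynomial ℂ :=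
  aeval (fun j => Polynomial.C (v j) + Polynomial.C (w j) * Polynomial.X)

lemma res_lin {N : ℕ} (v w c : Fin N → ℂ) :
    res v w (lin c) = Polynomial.C (∑ j, c j * v j) + Polynomial.C (∑ j, c j * w j) *
      Polynomial.X := by
  rw [lin, map_sum, map_sum, map_sum, Finset.sum_mul, ← Finset.sum_add_distrib]
  apply Finset.sum_congr rfl
  intro j _
  rw [res, map_mul, aeval_X, aeval_C, map_mul, map_mul]
  change Polynomial.C (c j) * _ = _
  ring

/-- the forms `f(A, B) + ∑ x_j g_j(A, B)` -/
noncomputable def Psi {N : ℕ} (A B : MvPolynomial (Fin (N + 2)) ℂ) (d : ℕ) :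
    (Polynomial ℂ × (Fin N → Polynomial ℂ)) →ₗ[ℂ] MvPolynomial (Fin (N + 2)) ℂ where
  toFun s := hom2 A B d s.1 + ∑ j : Fin N, X j.succ.succ * hom2 A B (d - 1) (s.2 j)
  map_add' := by
    intro s s'
    simp only [Prod.fst_add, Prod.snd_add, Pi.add_apply, map_add, mul_add, Finset.sum_add_distrib]
    ring
  map_smul' := by
    intro c s
    simp only [Prod.smul_fst, Prod.smul_snd, Pi.smul_apply, map_smul, RingHom.id_apply, smul_add,
      Finset.smul_sum, mul_smul_comm]

lemma lower {N : ℕ} (Y : Finset (ℙ ℂ (Fin (N + 2) → ℂ))) (d : ℕ) :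
    ((min (d + 1) (2 * Y.card) + N * min d Y.card : ℕ) : ℤ) ≤
      hilbert (n := N + 1) (symbolicSquare Y) d := by
  classical
  -- the first linear form
  obtain ⟨c, hc⟩ := exists_form (insert (Pi.single 0 1) (Y.image fun P => P.rep)) (by
    intro v hv
    rcases Finset.mem_insert.1 hv with rfl | hv
    · intro h
      have := congrFun h 0
      simp at this
    · obtain ⟨P, _, rfl⟩ := Finset.mem_image.1 hv
      exact P.rep_nonzero)
  have hc0 : c 0 ≠ 0 := by
    have := hc _ (Finset.mem_insert_self _ _)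
    simpa [Pi.single_apply] using this
  have hcP : ∀ P ∈ Y, ∑ j, c j * P.rep j ≠ 0 := fun P hP =>
    hc _ (Finset.mem_insert_of_mem (Finset.mem_image_of_mem _ hP))
  set v : ℙ ℂ (Fin (N + 2) → ℂ) → Fin (N + 2) → ℂ := fun P => (∑ j, c j * P.rep j)⁻¹ • P.rep
    with hv
  have hvmem : ∀ P, v P ∈ P.submodule := by
    intro P
    rw [P.submodule_eq]
    exact Submodule.smul_mem _ _ (Submodule.mem_span_singleton_self _)
  have hcv : ∀ P ∈ Y, ∑ j, c j * v P j = 1 := by
    intro P hP
    have : ∑ j, c j * v P j = (∑ j, c j * P.rep j)⁻¹ * ∑ j, c j * P.rep j := by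
      rw [Finset.mul_sum]
      apply Finset.sum_congr rfl
      intro j _
      simp only [hv, Pi.smul_apply, smul_eq_mul]
      ring
    rw [this, inv_mul_cancel₀ (hcP P hP)]
  have hvinj : ∀ P ∈ Y, ∀ Q ∈ Y, v P = v Q → P = Q := by
    intro P hP Q hQ h
    have h0 : ∀ P ∈ Y, (∑ j, c j * P.rep j)⁻¹ ≠ 0 := fun P hP => inv_ne_zero (hcP P hP)
    rw [← P.mk_rep, ← Q.mk_rep, Projectivization.mk_eq_mk_iff']
    refine ⟨(∑ j, c j * P.rep j) * (∑ j, c j * Q.rep j)⁻¹, ?_⟩
    rw [mul_smul]
    change (∑ j, c j * P.rep j) • v Q = P.rep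
    rw [← h]
    change (∑ j, c j * P.rep j) • ((∑ j, c j * P.rep j)⁻¹ • P.rep) = P.rep
    rw [smul_smul, mul_inv_cancel₀ (hcP P hP), one_smul]
  -- the second linear form
  obtain ⟨b, hb⟩ := exists_form (insert (c 0 • Pi.single 1 1 - c 1 • Pi.single 0 1)
      ((Y ×ˢ Y).filter (fun x => x.1 ≠ x.2) |>.image fun x => v x.1 - v x.2)) (by
    intro u hu
    rcases Finset.mem_insert.1 hu with rfl | hu
    · intro h
      have := congrFun h 1
      simp at this
      exact hc0 this
    · obtain ⟨x, hx, rfl⟩ := Finset.mem_image.1 hu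
      obtain ⟨hx1, hx2⟩ := Finset.mem_filter.1 hx
      obtain ⟨hx3, hx4⟩ := Finset.mem_product.1 hx1
      exact fun h => hx2 (hvinj _ hx3 _ hx4 (sub_eq_zero.1 h)))
  have hD : c 0 * b 1 - c 1 * b 0 ≠ 0 := by
    have := hb _ (Finset.mem_insert_self _ _)
    intro h
    apply this
    have h1 : ∀ j, b j * (c 0 • Pi.single 1 1 - c 1 • Pi.single 0 1 : Fin (N + 2) → ℂ) j =
        (if j = 1 then b j * c 0 else 0) - (if j = 0 then b j * c 1 else 0) := by
      intro j
      simp only [Pi.sub_apply, Pi.smul_apply, Pi.single_apply, smul_eq_mul, mul_ite, mul_one,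
        mul_zero, mul_sub]
    simp only [h1, Finset.sum_sub_distrib, Finset.sum_ite_eq', Finset.mem_univ, if_true]
    rw [← h]
    ring
  set t : ℙ ℂ (Fin (N + 2) → ℂ) → ℂ := fun P => ∑ j, b j * v P j with ht
  have htinj : Set.InjOn t Y := by
    intro P hP Q hQ h
    by_contra hPQ
    have h1 := hb (v P - v Q) (Finset.mem_insert_of_mem (Finset.mem_image.2 ⟨(P, Q),
      Finset.mem_filter.2 ⟨Finset.mem_product.2 ⟨hP, hQ⟩, hPQ⟩, rfl⟩))
    apply h1
    simp only [Pi.sub_apply, mul_sub, Finset.sum_sub_distrib]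
    exact sub_eq_zero.2 h
  set A := lin c with hA
  set B := lin b with hB
  -- the key claim
  have key : ∀ s : Polynomial ℂ × (Fin N → Polynomial ℂ),
      s.1 ∈ Polynomial.degreeLT ℂ (min (d + 1) (2 * Y.card)) →
      (∀ j, s.2 j ∈ Polynomial.degreeLT ℂ (min d Y.card)) →
      Psi A B d s ∈ symbolicSquare Y → s = 0 := by
    rintro ⟨f, g⟩ hf hg hs
    simp only at hf hg
    rw [Polynomial.mem_degreeLT] at hf
    have hg' : ∀ j, (g j).degree < (min d Y.card : ℕ) := fun j =>
      Polynomial.mem_degreeLT.1 (hg j)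
    have hfd : f.natDegree ≤ d := by
      rw [Polynomial.natDegree_le_iff_degree_le, ← Order.lt_succ_iff]
      refine lt_of_lt_of_le hf ?_
      have : ((min (d + 1) (2 * Y.card) : ℕ) : WithBot ℕ) ≤ ((d + 1 : ℕ) : WithBot ℕ) :=
        WithBot.coe_le_coe.2 (min_le_left _ _)
      exact this
    have hgd : ∀ j, (g j).natDegree ≤ d - 1 := by
      intro j
      by_cases h0 : g j = 0
      · rw [h0]; simp
      · have h1 := hg' j
        rw [Polynomial.degree_eq_natDegree h0] at h1
        have h2 := WithBot.coe_lt_coe.1 h1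
        have h3 : min d Y.card ≤ d := min_le_left _ _
        have h4 : (g j).natDegree < min d Y.card := h2
        omega
    have hmem : ∀ P ∈ Y, Psi A B d (f, g) ∈ primeIdeal P ^ 2 := by
      intro P hP
      have h1 := (Submodule.mem_iInf _).1 hs P
      exact (Submodule.mem_iInf _).1 h1 hP
    -- restriction to lines
    have hres : ∀ P ∈ Y, ∀ w : Fin (N + 2) → ℂ, ∑ j, c j * w j = 0 →
        res (v P) w (Psi A B d (f, g)) =
          f.comp (Polynomial.C (t P) + Polynomial.C (∑ j, b j * w j) * Polynomial.X) +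
          ∑ j : Fin N, (Polynomial.C (v P j.succ.succ) + Polynomial.C (w j.succ.succ) *
            Polynomial.X) * (g j).comp (Polynomial.C (t P) + Polynomial.C (∑ j, b j * w j) *
              Polynomial.X) := by
      intro P hP w hw
      have h1 : res (v P) w A = 1 := by
        rw [hA, res_lin, hcv P hP, hw]
        simp
      have h2 : res (v P) w B =
          Polynomial.C (t P) + Polynomial.C (∑ j, b j * w j) * Polynomial.X := by
        rw [hB, res_lin]
      change res (v P) w (hom2 A B d f + ∑ j : Fin N, X j.succ.succ * hom2 A B (d - 1) (g j)) = _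
      rw [map_add, map_sum, hom2_map hfd _ h1, h2]
      congr 1
      apply Finset.sum_congr rfl
      intro j _
      rw [map_mul, hom2_map (hgd j) _ h1, h2]
      congr 1
      rw [res, aeval_X]
    -- all `g j` vanish
    have hgz : ∀ j, g j = 0 := by
      intro j
      apply zero_of_roots Y t htinj
      · refine lt_of_lt_of_le (hg' j) ?_
        exact WithBot.coe_le_coe.2 (min_le_right _ _)
      intro P hP
      set w : Fin (N + 2) → ℂ := Pi.single j.succ.succ 1 +
        ((c 1 * b j.succ.succ - b 1 * c j.succ.succ) / (c 0 * b 1 - c 1 * b 0)) • Pi.single 0 1 +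
        ((b 0 * c j.succ.succ - c 0 * b j.succ.succ) / (c 0 * b 1 - c 1 * b 0)) • Pi.single 1 1
        with hw
      have hsum : ∀ a : Fin (N + 2) → ℂ, ∑ i, a i * w i = a j.succ.succ +
          a 0 * ((c 1 * b j.succ.succ - b 1 * c j.succ.succ) / (c 0 * b 1 - c 1 * b 0)) +
          a 1 * ((b 0 * c j.succ.succ - c 0 * b j.succ.succ) / (c 0 * b 1 - c 1 * b 0)) := by
        intro a
        simp only [hw, Pi.add_apply, Pi.smul_apply, Pi.single_apply, smul_eq_mul, mul_ite, mul_one,
          mul_zero, mul_add, Finset.sum_add_distrib, Finset.sum_ite_eq', Finset.mem_univ, if_true]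
      have hcw : ∑ i, c i * w i = 0 := by
        rw [hsum]
        field_simp
        ring
      have hbw : ∑ i, b i * w i = 0 := by
        rw [hsum]
        have h3 : b j.succ.succ = b j.succ.succ * (c 0 * b 1 - c 1 * b 0) /
            (c 0 * b 1 - c 1 * b 0) := (mul_div_cancel_right₀ _ hD).symm
        rw [mul_div_assoc', mul_div_assoc']
        nth_rewrite 1 [h3]
        rw [← add_div, ← add_div, div_eq_zero_iff]
        left
        ring
      have hws : ∀ k : Fin N, w k.succ.succ = if k = j then 1 else 0 := by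
        intro k
        have h1 : (k.succ.succ : Fin (N + 2)) ≠ 0 := Fin.succ_ne_zero _
        have h2 : (k.succ.succ : Fin (N + 2)) ≠ 1 := by
          intro h
          have := congrArg Fin.val h
          simp at this
        simp only [hw, Pi.add_apply, Pi.smul_apply, Pi.single_apply, smul_eq_mul, if_neg h1,
          if_neg h2, mul_zero, add_zero, Fin.succ_inj]
      have h1 := line_sq P (v P) w (hvmem P) (hmem P hP)
      change Polynomial.X ^ 2 ∣ res (v P) w (Psi A B d (f, g)) at h1
      rw [hres P hP w hcw, hbw] at h1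
      simp only [map_zero, zero_mul, add_zero, Polynomial.comp_C, hws] at h1
      have h2 := (Polynomial.X_pow_dvd_iff.1 h1) 1 (by norm_num)
      rw [Polynomial.coeff_add, Polynomial.finsetSum_coeff] at h2
      simp only [Polynomial.coeff_C_succ, Polynomial.coeff_mul_C, Polynomial.coeff_add,
        Polynomial.coeff_C_mul, Polynomial.coeff_X_one, mul_one, zero_add, ite_mul, one_mul,
        zero_mul, Finset.sum_ite_eq', Finset.mem_univ, if_true] at h2
      exact h2
    -- `f` vanishes
    have hfz : f = 0 := by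
      apply zero_of_double_roots Y t htinj
      · refine lt_of_lt_of_le hf ?_
        exact WithBot.coe_le_coe.2 (min_le_right _ _)
      intro P hP
      set w : Fin (N + 2) → ℂ := (c 0 * b 1 - c 1 * b 0)⁻¹ •
        (c 0 • Pi.single 1 1 - c 1 • Pi.single 0 1) with hw
      have hsum : ∀ a : Fin (N + 2) → ℂ, ∑ i, a i * w i =
          (c 0 * b 1 - c 1 * b 0)⁻¹ * (a 1 * c 0 - a 0 * c 1) := by
        intro a
        have h1 : ∀ i, a i * w i = (c 0 * b 1 - c 1 * b 0)⁻¹ *
            ((if i = 1 then a i * c 0 else 0) - (if i = 0 then a i * c 1 else 0)) := by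
          intro i
          simp only [hw, Pi.sub_apply, Pi.smul_apply, Pi.single_apply, smul_eq_mul, mul_ite,
            mul_one, mul_zero]
          split_ifs <;> ring
        simp only [h1, ← Finset.mul_sum, Finset.sum_sub_distrib, Finset.sum_ite_eq',
          Finset.mem_univ, if_true]
      have hcw : ∑ i, c i * w i = 0 := by
        rw [hsum]; ring
      have hbw : ∑ i, b i * w i = 1 := by
        rw [hsum]
        rw [show b 1 * c 0 - b 0 * c 1 = c 0 * b 1 - c 1 * b 0 by ring]
        exact inv_mul_cancel₀ hD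
      have h1 := line_sq P (v P) w (hvmem P) (hmem P hP)
      change Polynomial.X ^ 2 ∣ res (v P) w (Psi A B d (f, g)) at h1
      rw [hres P hP w hcw, hbw] at h1
      simp only [hgz, Polynomial.zero_comp, mul_zero, Finset.sum_const_zero, add_zero,
        one_mul, map_one] at h1
      obtain ⟨q, hq⟩ := h1
      refine ⟨q.comp (Polynomial.X - Polynomial.C (t P)), ?_⟩
      have h2 := congrArg (fun z => z.comp (Polynomial.X - Polynomial.C (t P))) hq
      simp only [Polynomial.comp_assoc, Polynomial.add_comp, Polynomial.C_comp,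
        Polynomial.X_comp, add_sub_cancel, Polynomial.comp_X, Polynomial.mul_comp,
        Polynomial.pow_comp] at h2
      exact h2
    rw [Prod.ext_iff]
    exact ⟨hfz, funext hgz⟩
  -- dimensions
  set a := min (d + 1) (2 * Y.card) with ha
  set e := min d Y.card with he
  let ι : (Polynomial.degreeLT ℂ a × (Fin N → Polynomial.degreeLT ℂ e)) →ₗ[ℂ]
      (Polynomial ℂ × (Fin N → Polynomial ℂ)) :=
    LinearMap.prodMap (Submodule.subtype _)
      (LinearMap.pi fun j => (Submodule.subtype _).comp (LinearMap.proj j))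
  have hι : Function.Injective ι := by
    rintro ⟨f, g⟩ ⟨f', g'⟩ h
    have h1 : (f : Polynomial ℂ) = f' := congrArg Prod.fst h
    have h2 : ∀ j, (g j : Polynomial ℂ) = g' j := fun j => congrFun (congrArg Prod.snd h) j
    rw [Prod.ext_iff]
    exact ⟨Subtype.ext h1, funext fun j => Subtype.ext (h2 j)⟩
  have key' : ∀ s, Psi A B d (ι s) ∈ symbolicSquare Y → s = 0 := by
    intro s hs
    have h1 := key (ι s) s.1.2 (fun j => (s.2 j).2) hs
    exact hι (by rw [h1, map_zero])
  have hinj : Function.Injective ((Psi A B d).comp ι) := by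
    rw [← LinearMap.ker_eq_bot, LinearMap.ker_eq_bot']
    intro s hs
    apply key'
    rw [LinearMap.comp_apply] at hs
    rw [hs]
    exact Ideal.zero_mem _
  have hfin : Module.finrank ℂ ((Psi A B d).comp ι).range = a + N * e := by
    rw [LinearMap.finrank_range_of_inj hinj, Module.finrank_prod, Module.finrank_pi_fintype,
      (Polynomial.degreeLTEquiv ℂ a).finrank_eq, Module.finrank_fin_fun]
    simp only [(Polynomial.degreeLTEquiv ℂ e).finrank_eq, Module.finrank_fin_fun,
      Finset.sum_const, Finset.card_univ, Fintype.card_fin, smul_eq_mul]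
  set U := homogeneousSubmodule (Fin (N + 2)) ℂ d with hU
  have hle : ((Psi A B d).comp ι).range ≤ U := by
    rintro _ ⟨s, rfl⟩
    rw [hU, mem_homogeneousSubmodule]
    change (hom2 A B d (s.1 : Polynomial ℂ) +
      ∑ j : Fin N, X j.succ.succ * hom2 A B (d - 1) (s.2 j : Polynomial ℂ)).IsHomogeneous d
    apply IsHomogeneous.add (hom2_homog (lin_homog c) (lin_homog b) d _)
    apply IsHomogeneous.sum
    intro j _
    rcases Nat.eq_zero_or_pos d with h0 | h0
    · have h1 : (s.2 j : Polynomial ℂ) = 0 := by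
        have h2 := Polynomial.mem_degreeLT.1 (s.2 j).2
        have h3 : e = 0 := by rw [he, h0]; simp
        by_contra hne
        rw [Polynomial.degree_eq_natDegree hne] at h2
        have h5 : (s.2 j : Polynomial ℂ).natDegree < e := WithBot.coe_lt_coe.1 h2
        omega
      rw [h1, map_zero, mul_zero]
      exact isHomogeneous_zero _ _ _
    · have h1 := (isHomogeneous_X ℂ (j.succ.succ : Fin (N + 2))).mul
        (hom2_homog (lin_homog c) (lin_homog b) (d - 1) (s.2 j : Polynomial ℂ))
      rwa [show 1 + (d - 1) = d by omega] at h1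
  set J' : Submodule ℂ (MvPolynomial (Fin (N + 2)) ℂ) :=
    U ⊓ Submodule.restrictScalars ℂ (symbolicSquare (n := N + 1) Y) with hJ'
  have : FiniteDimensional ℂ U := finDimHomog (N + 1) d
  have : FiniteDimensional ℂ J' := Submodule.finiteDimensional_of_le inf_le_left
  have : FiniteDimensional ℂ ((Psi A B d).comp ι).range := Submodule.finiteDimensional_of_le hle
  have h1 := Submodule.finrank_sup_add_finrank_inf_eq ((Psi A B d).comp ι).range J'
  have h2 : ((Psi A B d).comp ι).range ⊓ J' = ⊥ := by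
    rw [Submodule.eq_bot_iff]
    rintro _ ⟨⟨s, rfl⟩, hs⟩
    have h3 := key' s hs.2
    rw [h3, map_zero]
  rw [h2, finrank_bot, add_zero, hfin] at h1
  have h3 : Module.finrank ℂ (((Psi A B d).comp ι).range ⊔ J' : Submodule ℂ _) ≤
      Module.finrank ℂ U := Submodule.finrank_mono (sup_le hle inf_le_left)
  rw [h1] at h3
  unfold hilbert
  change ((a + N * e : ℕ) : ℤ) ≤ (Module.finrank ℂ U : ℤ) - Module.finrank ℂ J'
  push_cast at h3 ⊢
  have h4 : ((a + N * e + Module.finrank ℂ J' : ℕ) : ℤ) ≤ (Module.finrank ℂ U : ℤ) := by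
    exact_mod_cast h3
  push_cast at h4
  linarith

/-! ### Points on a line -/

/-- the point `(1 : t : 0 : ... : 0)` -/
noncomputable def pt (N : ℕ) (t : ℂ) : Fin (N + 2) → ℂ :=
  fun j => if j = 0 then 1 else if j = 1 then t else 0

lemma pt_zero (N : ℕ) (t : ℂ) : pt N t 0 = 1 := by simp [pt]

lemma pt_one (N : ℕ) (t : ℂ) : pt N t 1 = t := by simp [pt]

lemma pt_ne (N : ℕ) (t : ℂ) : pt N t ≠ 0 := by
  intro h
  have := congrFun h 0
  rw [pt_zero] at this
  simp at this

/-- restriction to the line of the points `(1 : t : 0 : ... : 0)` -/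
noncomputable def rho (N : ℕ) : MvPolynomial (Fin (N + 2)) ℂ →ₐ[ℂ] Polynomial ℂ :=
  aeval (fun j => if j = 0 then 1 else if j = 1 then Polynomial.X else 0)

lemma eval_rho (N : ℕ) (t : ℂ) (F : MvPolynomial (Fin (N + 2)) ℂ) :
    (rho N F).eval t = eval (pt N t) F := by
  have : (Polynomial.evalRingHom t).comp (rho N).toRingHom = eval (pt N t) := by
    apply MvPolynomial.ringHom_ext
    · intro c
      simp [rho]
    · intro j
      simp only [rho, pt, RingHom.comp_apply, AlgHom.toRingHom_eq_coe, RingHom.coe_coe, aeval_X,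
        Polynomial.coe_evalRingHom, eval_X]
      split_ifs <;> simp
  exact congrArg (fun φ => φ F) this

lemma derivative_rho (N : ℕ) (F : MvPolynomial (Fin (N + 2)) ℂ) :
    Polynomial.derivative (rho N F) = rho N (pderiv 1 F) := by
  induction F using MvPolynomial.induction_on with
  | C c => simp [rho]
  | add p q hp hq => simp only [map_add, hp, hq]
  | mul_X p i hp =>
    rw [map_mul, Polynomial.derivative_mul, hp, Derivation.leibniz, smul_eq_mul, smul_eq_mul,
      map_add, map_mul, map_mul, pderiv_X, Pi.single_apply]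
    have h1 : Polynomial.derivative (rho N (X i)) = rho N (if i = 1 then 1 else 0) := by
      rw [rho, aeval_X]
      by_cases h0 : i = 0
      · subst h0
        simp
      · by_cases h1 : i = 1
        · subst h1
          simp
        · simp [h0, h1]
    rw [h1]
    by_cases h : i = 1
    · subst h
      simp
      ring
    · have h' : ¬ (1 : Fin (N + 2)) = i := fun h' => h h'.symm
      simp [h]
      ring

lemma rho_mem (N m : ℕ) {F : MvPolynomial (Fin (N + 2)) ℂ} (hF : F.IsHomogeneous m) :
    rho N F ∈ Polynomial.degreeLT ℂ (m + 1) := by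
  rw [Polynomial.mem_degreeLT]
  have h1 : (rho N F).natDegree ≤ m * 1 := by
    apply aeval_natDegree_le F hF.totalDegree_le
    intro i
    split_ifs <;> simp
  rw [mul_one] at h1
  exact lt_of_le_of_lt (Polynomial.degree_le_of_natDegree_le h1) (WithBot.coe_lt_coe.2
    (Nat.lt_succ_self m))

lemma rho_pderiv_mem (N m : ℕ) (i : Fin (N + 2)) {F : MvPolynomial (Fin (N + 2)) ℂ}
    (hF : F.IsHomogeneous m) : rho N (pderiv i F) ∈ Polynomial.degreeLT ℂ m := by
  rcases Nat.eq_zero_or_pos m with h0 | h0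
  · subst h0
    have h1 : F = C (coeff 0 F) := totalDegree_eq_zero_iff_eq_C.1 (Nat.le_zero.1 hF.totalDegree_le)
    rw [h1, pderiv_C, map_zero]
    exact Submodule.zero_mem _
  · have h1 := rho_mem N (m - 1) (hF.pderiv (i := i))
    rwa [show m - 1 + 1 = m by omega] at h1

/-- The rank of a linear map which factors through a small space. -/
lemma rank_le {V W Q : Type*} [AddCommGroup V] [Module ℂ V] [AddCommGroup W] [Module ℂ W]
    [AddCommGroup Q] [Module ℂ Q] [FiniteDimensional ℂ W] [FiniteDimensional ℂ Q]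
    (f : V →ₗ[ℂ] W) (g : W →ₗ[ℂ] Q) {a b : ℕ} (ha : Module.finrank ℂ W = a)
    (hb : Module.finrank ℂ Q = b) : Module.finrank ℂ (g.comp f).range ≤ min a b := by
  apply le_min
  · calc Module.finrank ℂ (g.comp f).range ≤ Module.finrank ℂ g.range :=
          Submodule.finrank_mono (LinearMap.range_comp_le_range f g)
      _ ≤ Module.finrank ℂ W := LinearMap.finrank_range_le g
      _ = a := ha
  · calc Module.finrank ℂ (g.comp f).range ≤ Module.finrank ℂ Q := Submodule.finrank_le _
      _ = b := hb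

/-- evaluation at `0, 1, ..., r - 1` -/
noncomputable def ev (r : ℕ) : Polynomial ℂ →ₗ[ℂ] (Fin r → ℂ) :=
  LinearMap.pi fun i => Polynomial.leval ((i : ℕ) : ℂ)

lemma upper {N r d : ℕ} (Y : Finset (ℙ ℂ (Fin (N + 2) → ℂ)))
    (hY : ∀ P ∈ Y, ∃ i : Fin r, P = Projectivization.mk ℂ (pt N ((i : ℕ) : ℂ)) (pt_ne N _)) :
    hilbert (n := N + 1) (symbolicSquare Y) d ≤
      ((min (d + 1) (2 * r) + N * min d r : ℕ) : ℤ) := by
  classical
  set U := homogeneousSubmodule (Fin (N + 2)) ℂ d with hU
  have hUh : ∀ F : U, (F : MvPolynomial (Fin (N + 2)) ℂ).IsHomogeneous d :=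
    fun F => (mem_homogeneousSubmodule _ _).1 F.2
  have : FiniteDimensional ℂ U := finDimHomog (N + 1) d
  -- first block
  let f0 : U →ₗ[ℂ] Polynomial.degreeLT ℂ (d + 1) :=
    LinearMap.codRestrict _ ((rho N).toLinearMap.comp U.subtype) (fun F => rho_mem N d (hUh F))
  let g0 : Polynomial.degreeLT ℂ (d + 1) →ₗ[ℂ] ((Fin r → ℂ) × (Fin r → ℂ)) :=
    (LinearMap.prod (ev r) ((ev r).comp Polynomial.derivative)).comp (Submodule.subtype _)
  let f1 : Fin N → (U →ₗ[ℂ] Polynomial.degreeLT ℂ d) := fun j =>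
    LinearMap.codRestrict _ ((rho N).toLinearMap.comp
      ((pderiv j.succ.succ : Derivation ℂ (MvPolynomial (Fin (N + 2)) ℂ)
        (MvPolynomial (Fin (N + 2)) ℂ)).toLinearMap.comp U.subtype))
      (fun F => rho_pderiv_mem N d _ (hUh F))
  let g1 : Polynomial.degreeLT ℂ d →ₗ[ℂ] (Fin r → ℂ) := (ev r).comp (Submodule.subtype _)
  have hfd1 : ∀ a : ℕ, FiniteDimensional ℂ (Polynomial.degreeLT ℂ a) := fun a =>
    LinearEquiv.finiteDimensional (Polynomial.degreeLTEquiv ℂ a).symm
  have hdim : ∀ a : ℕ, Module.finrank ℂ (Polynomial.degreeLT ℂ a) = a := fun a => by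
    rw [(Polynomial.degreeLTEquiv ℂ a).finrank_eq, Module.finrank_fin_fun]
  have := hfd1 (d + 1)
  have := hfd1 d
  have hr0 : Module.finrank ℂ (g0.comp f0).range ≤ min (d + 1) (2 * r) := by
    apply rank_le f0 g0 (hdim _)
    rw [Module.finrank_prod, Module.finrank_fin_fun]
    ring
  have hr1 : ∀ j, Module.finrank ℂ (g1.comp (f1 j)).range ≤ min d r := fun j =>
    rank_le (f1 j) g1 (hdim _) (Module.finrank_fin_fun ℂ)
  let Q : U →ₗ[ℂ] ((g0.comp f0).range × ((j : Fin N) → (g1.comp (f1 j)).range)) :=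
    LinearMap.prod (g0.comp f0).rangeRestrict (LinearMap.pi fun j => (g1.comp (f1 j)).rangeRestrict)
  have h1 := LinearMap.finrank_range_add_finrank_ker Q
  have h2 : Module.finrank ℂ Q.range ≤ min (d + 1) (2 * r) + N * min d r := by
    refine (Submodule.finrank_le _).trans ?_
    rw [Module.finrank_prod, Module.finrank_pi_fintype]
    apply Nat.add_le_add hr0
    refine (Finset.sum_le_sum fun j _ => hr1 j).trans ?_
    simp
  set J' : Submodule ℂ (MvPolynomial (Fin (N + 2)) ℂ) :=
    U ⊓ Submodule.restrictScalars ℂ (symbolicSquare (n := N + 1) Y) with hJ'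
  have : FiniteDimensional ℂ J' := Submodule.finiteDimensional_of_le inf_le_left
  have h3 : Module.finrank ℂ Q.ker ≤ Module.finrank ℂ J' := by
    rw [← Submodule.finrank_map_subtype_eq]
    apply Submodule.finrank_mono
    rintro _ ⟨F, hF, rfl⟩
    refine ⟨F.2, ?_⟩
    have hF0 : g0 (f0 F) = 0 := congrArg (fun z => (z.1 : (Fin r → ℂ) × (Fin r → ℂ))) hF
    have hF1 : ∀ j, g1 (f1 j F) = 0 := fun j => congrArg (fun z => (z.2 j : Fin r → ℂ)) hF
    change (F : MvPolynomial (Fin (N + 2)) ℂ) ∈ symbolicSquare (n := N + 1) Y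
    unfold symbolicSquare
    rw [Submodule.mem_iInf]
    intro P
    rw [Submodule.mem_iInf]
    intro hP
    obtain ⟨i, rfl⟩ := hY P hP
    have e0 : eval (pt N ((i : ℕ) : ℂ)) (F : MvPolynomial (Fin (N + 2)) ℂ) = 0 := by
      rw [← eval_rho]
      exact congrFun (congrArg Prod.fst hF0) i
    have e1 : eval (pt N ((i : ℕ) : ℂ)) (pderiv 1 (F : MvPolynomial (Fin (N + 2)) ℂ)) = 0 := by
      rw [← eval_rho, ← derivative_rho]
      exact congrFun (congrArg Prod.snd hF0) i
    have e2 : ∀ j : Fin N, eval (pt N ((i : ℕ) : ℂ))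
        (pderiv j.succ.succ (F : MvPolynomial (Fin (N + 2)) ℂ)) = 0 := by
      intro j
      rw [← eval_rho]
      exact congrFun (hF1 j) i
    apply mem_sq (n := N + 1) (pt N ((i : ℕ) : ℂ)) (pt_ne N _) (pt_zero N _) (hUh F) e0
    have e3 := congrArg (eval (pt N ((i : ℕ) : ℂ))) (hUh F).sum_X_mul_pderiv
    rw [map_sum, map_nsmul, e0, smul_zero, Fin.sum_univ_succ, Fin.sum_univ_succ] at e3
    simp only [map_mul, eval_X, pt_zero, one_mul, Fin.succ_zero_eq_one, e1, mul_zero, e2,
      Finset.sum_const_zero, add_zero] at e3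
    intro j
    refine Fin.cases e3 (fun j => ?_) j
    exact Fin.cases (by simpa using e1) (fun j => e2 j) j
  unfold hilbert
  change (Module.finrank ℂ U : ℤ) - Module.finrank ℂ J' ≤ _
  have h4 : Module.finrank ℂ U ≤ (min (d + 1) (2 * r) + N * min d r) + Module.finrank ℂ J' := by
    omega
  have h5 : (Module.finrank ℂ U : ℤ) ≤
      ((min (d + 1) (2 * r) + N * min d r : ℕ) : ℤ) + (Module.finrank ℂ J' : ℤ) := by
    exact_mod_cast h4
  linarith

/-- **The least Hilbert function of `r` double points.** For all `n, r ≥ 1` the set of the Hilbert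
functions of `R / I_Y^(2)`, `Y` a set of `r` points of `ℙⁿ`, has a least element, namely the
function `d ↦ min (d + 1) (2 r) + (n - 1) min d r`. -/
theorem result (n r : ℕ) (hn : 1 ≤ n) (_hr : 1 ≤ r) :
    IsLeast (hilbertFunctions n r)
      (fun d => ((min (d + 1) (2 * r) + (n - 1) * min d r : ℕ) : ℤ)) := by
  classical
  obtain ⟨N, rfl⟩ : ∃ N, n = N + 1 := ⟨n - 1, by omega⟩
  rw [Nat.add_sub_cancel]
  constructor
  · set Y : Finset (ℙ ℂ (Fin (N + 1 + 1) → ℂ)) := Finset.univ.image
      (fun i : Fin r => Projectivization.mk ℂ (pt N ((i : ℕ) : ℂ)) (pt_ne N _)) with hY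
    have hcard : Y.card = r := by
      rw [hY, Finset.card_image_of_injective, Finset.card_univ, Fintype.card_fin]
      intro i j h
      rw [Projectivization.mk_eq_mk_iff'] at h
      obtain ⟨a, ha⟩ := h
      have h0 := congrFun ha 0
      have h1 := congrFun ha 1
      rw [Pi.smul_apply, pt_zero, pt_zero, smul_eq_mul, mul_one] at h0
      rw [Pi.smul_apply, pt_one, pt_one, smul_eq_mul, h0, one_mul] at h1
      exact Fin.ext (Nat.cast_injective h1).symm
    refine ⟨Y, hcard, ?_⟩
    funext d
    apply le_antisymm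
    · have := lower Y d
      rwa [hcard] at this
    · apply upper Y
      intro P hP
      obtain ⟨i, _, rfl⟩ := Finset.mem_image.1 hP
      exact ⟨i, rfl⟩
  · rintro H ⟨Y, hY, rfl⟩
    intro d
    have := lower Y d
    rwa [hY] at this

end Pool.Agent.Results.MP_676d90_ag.LeastHilbertFunction
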